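import Pool.Agent.Lib.MP_bf61d2_nt.Joint.QuadCos

set_option autoImplicit false

/-!
Logarithmic mean values over the places of a number field.
-/

namespace Pool.Agent.Lib.MP_bf61d2_nt

open NumberField IsDedekindDomain Filter Topology

variable {K : Type*} [Field K] [NumberField K]

/-- The function is bounded and its sum against the weights is at most `m log (1 / (σ - 1))` up to
a constant. -/
def UB (f : HeightOneSpectrum (𝓞 K) → ℝ) (m : ℝ) : Prop :=
  (∃ M : ℝ, ∀ v, |f v| ≤ M) ∧ ∃ C : ℝ, ∀ᶠ σ : ℝ in 𝓝[>] 1,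
    ∑' v, wp σ v * f v ≤ m * Real.log (1 / (σ - 1)) + C

/-- The function is bounded and its sum against the weights is `m log (1 / (σ - 1))` up to
a constant. -/
def MV (f : HeightOneSpectrum (𝓞 K) → ℝ) (m : ℝ) : Prop :=
  UB f m ∧ UB (fun v => -f v) (-m)

lemma summable_of_bdd {f : HeightOneSpectrum (𝓞 K) → ℝ} (hf : ∃ M : ℝ, ∀ v, |f v| ≤ M) {σ : ℝ}
    (hσ : 1 < σ) : Summable fun v => wp σ v * f v := by
  obtain ⟨M, hM⟩ := hf
  exact summable_mul_bdd (summable_wp hσ) (fun v => (wp_pos σ v).le) hM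

lemma UB.add {f g : HeightOneSpectrum (𝓞 K) → ℝ} {m n : ℝ} (hf : UB f m) (hg : UB g n) :
    UB (fun v => f v + g v) (m + n) := by
  have hf1 := hf.1
  have hg1 := hg.1
  obtain ⟨⟨M, hM⟩, C, hC⟩ := hf
  obtain ⟨⟨N, hN⟩, D, hD⟩ := hg
  refine ⟨⟨M + N, fun v => (abs_add_le _ _).trans (add_le_add (hM v) (hN v))⟩, C + D, ?_⟩
  filter_upwards [hC, hD, self_mem_nhdsWithin] with σ h1 h2 hσ
  have e : ∑' v, wp σ v * (f v + g v) = ∑' v, wp σ v * f v + ∑' v, wp σ v * g v := by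
    rw [← (summable_of_bdd hf1 hσ).tsum_add (summable_of_bdd hg1 hσ)]
    exact tsum_congr fun v => by ring
  rw [e]
  linarith

lemma UB.const_mul {f : HeightOneSpectrum (𝓞 K) → ℝ} {m : ℝ} (hf : UB f m) {c : ℝ}
    (hc : 0 ≤ c) : UB (fun v => c * f v) (c * m) := by
  obtain ⟨⟨M, hM⟩, C, hC⟩ := hf
  refine ⟨⟨c * M, fun v => ?_⟩, c * C, ?_⟩
  · rw [abs_mul, abs_of_nonneg hc]
    exact mul_le_mul_of_nonneg_left (hM v) hc
  · filter_upwards [hC] with σ h1
    have e : ∑' v, wp σ v * (c * f v) = c * ∑' v, wp σ v * f v := by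
      rw [← tsum_mul_left]
      exact tsum_congr fun v => by ring
    rw [e]
    nlinarith

lemma UB.le {f : HeightOneSpectrum (𝓞 K) → ℝ} {m n : ℝ} (hf : UB f m) (h : m ≤ n) : UB f n := by
  obtain ⟨h1, C, hC⟩ := hf
  refine ⟨h1, C, ?_⟩
  filter_upwards [hC, tendsto_sub_one.eventually (tendsto_log_inv.eventually
    (eventually_ge_atTop 0))] with σ h2 h3
  nlinarith [mul_le_mul_of_nonneg_right h h3]
where
  tendsto_sub_one : Tendsto (fun σ : ℝ => σ - 1) (𝓝[>] 1) (𝓝[>] 0) := by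
    refine tendsto_nhdsWithin_iff.mpr ⟨?_, ?_⟩
    · have h : Tendsto (fun σ : ℝ => σ - 1) (𝓝 1) (𝓝 (1 - 1)) := tendsto_id.sub_const 1
      rw [sub_self] at h
      exact h.mono_left nhdsWithin_le_nhds
    · filter_upwards [self_mem_nhdsWithin] with σ hσ
      have : (1 : ℝ) < σ := hσ
      exact (by linarith : (0 : ℝ) < σ - 1)

/-- Comparison off a finite set. -/
lemma UB.mono_off {f g : HeightOneSpectrum (𝓞 K) → ℝ} {m : ℝ} (hg : UB g m)
    (hf : ∃ M : ℝ, ∀ v, |f v| ≤ M) (S : Finset (HeightOneSpectrum (𝓞 K)))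
    (h : ∀ v, v ∉ S → f v ≤ g v) : UB f m := by
  classical
  have hg1 := hg.1
  have hf1 := hf
  obtain ⟨⟨N, hN⟩, C, hC⟩ := hg
  obtain ⟨M, hM⟩ := hf
  have hMN : ∀ v, f v - g v ≤ |M| + |N| := fun v => by
    have h1 := (abs_le.mp (hM v)).2
    have h2 := (abs_le.mp (hN v)).1
    linarith [le_abs_self M, le_abs_self N]
  refine ⟨hf1, C + (|M| + |N|) * S.card, ?_⟩
  filter_upwards [hC, self_mem_nhdsWithin] with σ h1 hσ
  have hσ' : 1 < σ := hσ
  have hsum : HasSum (fun v : HeightOneSpectrum (𝓞 K) => if v ∈ S then (|M| + |N|) else 0)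
      ((|M| + |N|) * S.card) := by
    have h8 : HasSum (fun v : HeightOneSpectrum (𝓞 K) => if v ∈ S then (|M| + |N|) else 0)
      (∑ v ∈ S, if v ∈ S then (|M| + |N|) else 0) :=
      hasSum_sum_of_ne_finset_zero fun v hv => if_neg hv
    have h9 : ∑ v ∈ S, (if v ∈ S then (|M| + |N|) else 0) = (|M| + |N|) * S.card := by
      rw [Finset.sum_congr rfl fun v hv => if_pos hv, Finset.sum_const, nsmul_eq_mul,
        mul_comm]
    rwa [h9] at h8
  have h2 : ∑' v, wp σ v * f v ≤ ∑' v, wp σ v * g v + (|M| + |N|) * S.card := by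
    have h3 := (summable_of_bdd hg1 hσ).hasSum.add hsum
    refine hasSum_le (fun v => ?_) (summable_of_bdd hf1 hσ).hasSum h3
    have hw0 := wp_pos σ v
    have hw1 : wp σ v ≤ 1 := (wp_le_half hσ'.le v).trans (by norm_num)
    by_cases hv : v ∈ S
    · rw [if_pos hv]
      have h4 := hMN v
      have h5 : wp σ v * (f v - g v) ≤ |M| + |N| := by
        calc wp σ v * (f v - g v) ≤ wp σ v * (|M| + |N|) :=
              mul_le_mul_of_nonneg_left h4 hw0.le
          _ ≤ 1 * (|M| + |N|) := mul_le_mul_of_nonneg_right hw1 (by positivity)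
          _ = _ := one_mul _
      linarith
    · rw [if_neg hv, add_zero]
      exact mul_le_mul_of_nonneg_left (h v hv) hw0.le
  linarith

lemma MV.add {f g : HeightOneSpectrum (𝓞 K) → ℝ} {m n : ℝ} (hf : MV f m) (hg : MV g n) :
    MV (fun v => f v + g v) (m + n) := by
  refine ⟨hf.1.add hg.1, ?_⟩
  have h := hf.2.add hg.2
  have e1 : (fun v => -(f v + g v)) = fun v => -f v + -g v := by
    funext v; ring
  have e2 : -(m + n) = -m + -n := by ring
  rw [e1, e2]
  exact h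

lemma MV.neg {f : HeightOneSpectrum (𝓞 K) → ℝ} {m : ℝ} (hf : MV f m) :
    MV (fun v => -f v) (-m) := by
  refine ⟨hf.2, ?_⟩
  have e1 : (fun v => - -f v) = f := by funext v; ring
  rw [e1, neg_neg]
  exact hf.1

lemma MV.const_mul {f : HeightOneSpectrum (𝓞 K) → ℝ} {m : ℝ} (hf : MV f m) (c : ℝ) :
    MV (fun v => c * f v) (c * m) := by
  rcases le_or_gt 0 c with hc | hc
  · refine ⟨hf.1.const_mul hc, ?_⟩
    have h := hf.2.const_mul hc
    have e1 : (fun v => -(c * f v)) = fun v => c * -f v := by funext v; ring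
    rw [e1, ← mul_neg]
    exact h
  · have hc' : 0 ≤ -c := by linarith
    refine ⟨?_, ?_⟩
    · have h := hf.2.const_mul hc'
      have e1 : (fun v => c * f v) = fun v => -c * -f v := by funext v; ring
      have e2 : c * m = -c * -m := by ring
      rw [e1, e2]
      exact h
    · have h := hf.1.const_mul hc'
      have e1 : (fun v => -(c * f v)) = fun v => -c * f v := by funext v; ring
      have e2 : -(c * m) = -c * m := by ring
      rw [e1, e2]
      exact h

lemma MV.congr_off {f g : HeightOneSpectrum (𝓞 K) → ℝ} {m : ℝ} (hg : MV g m)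
    (hf : ∃ M : ℝ, ∀ v, |f v| ≤ M) (S : Finset (HeightOneSpectrum (𝓞 K)))
    (h : ∀ v, v ∉ S → f v = g v) : MV f m := by
  refine ⟨hg.1.mono_off hf S fun v hv => (h v hv).le, ?_⟩
  refine hg.2.mono_off ?_ S fun v hv => by rw [h v hv]
  obtain ⟨M, hM⟩ := hf
  exact ⟨M, fun v => by rw [abs_neg]; exact hM v⟩

lemma mv_one : MV (K := K) (fun _ => 1) 1 := by
  obtain ⟨C, hC0, hC⟩ := PS_bound K
  refine ⟨⟨⟨1, fun v => by simp⟩, C, ?_⟩, ⟨⟨1, fun v => by simp⟩, C, ?_⟩⟩
  · filter_upwards [hC] with σ h1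
    have e : ∑' v : HeightOneSpectrum (𝓞 K), wp σ v * 1 = PS K σ := by
      simp only [mul_one]; rfl
    rw [e]
    linarith [(abs_le.mp h1).2]
  · filter_upwards [hC] with σ h1
    have e : ∑' v : HeightOneSpectrum (𝓞 K), wp σ v * -1 = -PS K σ := by
      simp only [mul_neg, mul_one, tsum_neg]; rfl
    rw [e]
    linarith [(abs_le.mp h1).1]

lemma mv_const (c : ℝ) : MV (K := K) (fun _ => c) c := by
  have h := (mv_one (K := K)).const_mul c
  simpa using h

/-- The basic functions. -/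
noncomputable def bs (e : 𝓞 K) (u : ℝ) (v : HeightOneSpectrum (𝓞 K)) : ℝ :=
  (chi v e : ℝ) * Real.cos (u * Real.log (nm v))

lemma abs_bs_le (e : 𝓞 K) (u : ℝ) (v : HeightOneSpectrum (𝓞 K)) : |bs e u v| ≤ 1 := by
  rw [bs, abs_mul]
  exact mul_le_one₀ (abs_chi_real_le v e) (abs_nonneg _) (Real.abs_cos_le_one _)

lemma exists_off {e : 𝓞 K} (he0 : e ≠ 0) : ∃ S : Finset (HeightOneSpectrum (𝓞 K)),
    ∀ v, v ∉ S → e ∉ v.asIdeal := by
  refine ⟨(finite_dvd he0).toFinset, fun v hv => ?_⟩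
  rw [Set.Finite.mem_toFinset] at hv
  exact hv

lemma chi_sq_off {e : 𝓞 K} {v : HeightOneSpectrum (𝓞 K)} (he : e ∉ v.asIdeal) :
    (chi v e : ℝ) ^ 2 = 1 := by
  rcases chi_eq_one_or v he with h | h <;> rw [h] <;> norm_num

/-- The basic functions have mean zero. -/
lemma mv_bs_zero {e : 𝓞 K} (he0 : e ≠ 0) {u : ℝ} (h : u = 0 → ¬ IsSquare (e : K)) :
    MV (bs e u) 0 := by
  obtain ⟨C, hC0, hC⟩ := chi_cos_bound he0 h
  refine ⟨⟨⟨1, abs_bs_le e u⟩, C, ?_⟩, ⟨⟨1, fun v => by rw [abs_neg]; exact abs_bs_le e u v⟩, C, ?_⟩⟩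
  · filter_upwards [hC] with σ h1
    rw [zero_mul, zero_add]
    exact (abs_le.mp h1).2
  · filter_upwards [hC] with σ h1
    have e : ∑' v : HeightOneSpectrum (𝓞 K), wp σ v * -bs e u v =
        -∑' v, wp σ v * ((chi v e : ℝ) * Real.cos (u * Real.log (nm v))) := by
      simp only [mul_neg, tsum_neg]; rfl
    rw [e, neg_zero, zero_mul, zero_add]
    linarith [(abs_le.mp h1).1]

/-- A square has mean one. -/
lemma mv_bs_one {e : 𝓞 K} (he0 : e ≠ 0) (he : IsSquare (e : K)) : MV (bs e 0) 1 := by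
  obtain ⟨y, hy⟩ := he
  have hyint : IsIntegral ℤ y := by
    refine IsIntegral.of_pow (n := 2) (by norm_num) ?_
    rw [sq, ← hy]
    exact RingOfIntegers.isIntegral_coe e
  set x : 𝓞 K := ⟨y, hyint⟩ with hx
  have hex : e = x ^ 2 := by
    apply RingOfIntegers.coe_injective
    rw [map_pow, sq]
    exact hy
  obtain ⟨S, hS⟩ := exists_off he0
  refine mv_one.congr_off ⟨1, abs_bs_le e 0⟩ S fun v hv => ?_
  have h1 : chi v e = 1 := by
    rw [chi_eq_one_iff v (hS v hv)]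
    refine ⟨x, ?_⟩
    rw [hex, sub_self]
    exact Ideal.zero_mem _
  rw [bs, h1]
  simp

/-- A cosine has mean zero. -/
lemma mv_cos {u : ℝ} (hu : u ≠ 0) :
    MV (fun v : HeightOneSpectrum (𝓞 K) => Real.cos (u * Real.log (nm v))) 0 := by
  have h := mv_bs_zero (K := K) (e := 1) one_ne_zero (u := u) (fun h => absurd h hu)
  obtain ⟨S, hS⟩ := exists_off (K := K) (e := 1) one_ne_zero
  refine h.congr_off ⟨1, fun v => Real.abs_cos_le_one _⟩ S fun v hv => ?_
  have h1 : chi v (1 : 𝓞 K) = 1 := by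
    rw [chi_eq_one_iff v (hS v hv)]
    refine ⟨1, ?_⟩
    rw [one_pow, sub_self]
    exact Ideal.zero_mem _
  rw [bs, h1]
  simp

end Pool.Agent.Lib.MP_bf61d2_nt
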