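import Pool.Agent.Lib.MP_bf61d2_nt.Joint.Main
import Pool.Agent.Lib.MP_bf61d2_nt.Joint.MV

set_option autoImplicit false

/-!
Linear combinations of the logarithms of the L-functions of quadratic twists.
-/

namespace Pool.Agent.Lib.MP_bf61d2_nt

open Filter Topology NumberField IsDedekindDomain WeierstrassCurve

variable {K : Type*} [Field K] [NumberField K]

/-- The logarithms of the L-functions of all the quadratic twists as sums over the places. -/
theorem log_formula (E : WeierstrassCurve K) [E.IsElliptic] :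
    ∃ (c : HeightOneSpectrum (𝓞 K) → ℝ) (e m : K → 𝓞 K), (∀ v, |c v| ≤ 2) ∧
      (∀ d : K, d ≠ 0 → e d ≠ 0 ∧ m d ≠ 0 ∧ d * (m d : K) ^ 2 = e d) ∧
      ∀ p : K × ℝ, p.1 ≠ 0 → ∃ R : ℝ, ∀ δ : ℝ, 0 < δ →
        |Real.log ‖(qt E p.1).LSeries ((3 / 2 + δ : ℝ) + p.2 * Complex.I)‖ -
          ∑' v, wp (1 + δ) v * (c v * bs (e p.1) p.2 v)| ≤ R := by
  classical
  set a : K := -E.c₄ / 48 with ha0
  set b : K := -E.c₆ / 864 with hb0
  have hab : 4 * a ^ 3 + 27 * b ^ 2 ≠ 0 := by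
    intro h
    have h1 : E.Δ ≠ 0 := E.isUnit_Δ.ne_zero
    have h2 := E.c_relation
    have h3 : 4 * a ^ 3 + 27 * b ^ 2 = -(1728 * E.Δ) / 27648 := by
      rw [h2, ha0, hb0]; ring
    rw [h3] at h
    apply h1
    have h5 : 1728 * E.Δ = 0 := by linear_combination (-27648) * h
    rcases mul_eq_zero.mp h5 with h6 | h6
    · norm_num at h6
    · exact h6
  obtain ⟨A, B, n, hn0, ha, hb⟩ := exists_model a b
  have hn : (n : K) ≠ 0 := by simpa using hn0
  choose! e m he0 hm0 hem using fun (d : K) (hd : d ≠ 0) => exists_sqrep (K := K) hd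
  have hm : ∀ d, d ≠ 0 → (m d : K) ≠ 0 := fun d hd => by simpa using hm0 d hd
  set W : WeierstrassCurve K := tc a b 1 with hW
  set V₀ : WeierstrassCurve (𝓞 K) := ⟨0, 0, 0, A, B⟩ with hV₀
  have hWeq : W = (⟨Units.mk0 ((n : K) * (1 : 𝓞 K)) (mul_ne_zero hn (by simp)), 0, 0, 0⟩ :
      VariableChange K) • V₀.map (algebraMap (𝓞 K) K) := by
    have h := tc_eq (a := a) (b := b) (d := 1) (e := 1) (m := 1) hn (by simp) ha hb (by simp)
    rw [hW, h]
    simp only [one_pow, mul_one]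
    rfl
  have hΔ0 : V₀.Δ ≠ 0 := by
    intro h0
    apply hab
    have h1 : V₀.Δ = -16 * (4 * A ^ 3 + 27 * B ^ 2) := by
      simp only [hV₀, Δ, b₂, b₄, b₆, b₈]
      ring
    rw [h1] at h0
    have h2 : (4 * A ^ 3 + 27 * B ^ 2 : 𝓞 K) = 0 := by
      rcases mul_eq_zero.mp h0 with h | h
      · norm_num at h
      · exact h
    have h3 := congrArg (algebraMap (𝓞 K) K) h2
    rw [map_add, map_mul, map_mul, map_pow, map_pow, map_ofNat, map_ofNat, map_zero] at h3
    have h4 : 4 * (a * (n : K) ^ 4) ^ 3 + 27 * (b * (n : K) ^ 6) ^ 2 = 0 := by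
      rw [ha, hb]; exact h3
    have h5 : (4 * a ^ 3 + 27 * b ^ 2) * (n : K) ^ 12 = 0 := by linear_combination h4
    rcases mul_eq_zero.mp h5 with h | h
    · exact h
    · exact absurd h (pow_ne_zero _ hn)
  -- the exceptional places
  have h60 : ∀ p : K × ℝ, p.1 ≠ 0 → (6 : 𝓞 K) * e p.1 * V₀.Δ ≠ 0 := fun p hp =>
    mul_ne_zero (mul_ne_zero (by norm_num) (he0 p.1 hp)) hΔ0
  have hloc : ∀ p : K × ℝ, p.1 ≠ 0 → ∀ v : HeightOneSpectrum (𝓞 K),
      (6 : 𝓞 K) * e p.1 * V₀.Δ ∉ v.asIdeal → cc (qt E p.1) v = chi v (e p.1) * cc W v := by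
    intro p hp v hv
    have h2 : (2 : 𝓞 K) ∉ v.asIdeal := fun h => hv (by
      have : (6 : 𝓞 K) * e p.1 * V₀.Δ = 3 * e p.1 * V₀.Δ * 2 := by ring
      rw [this]; exact Ideal.mul_mem_left _ _ h)
    have h3 : (3 : 𝓞 K) ∉ v.asIdeal := fun h => hv (by
      have : (6 : 𝓞 K) * e p.1 * V₀.Δ = 2 * e p.1 * V₀.Δ * 3 := by ring
      rw [this]; exact Ideal.mul_mem_left _ _ h)
    have h4 : e p.1 ∉ v.asIdeal := fun h => hv (by
      have : (6 : 𝓞 K) * e p.1 * V₀.Δ = 6 * V₀.Δ * e p.1 := by ring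
      rw [this]; exact Ideal.mul_mem_left _ _ h)
    have h5 : V₀.Δ ∉ v.asIdeal := fun h => hv (Ideal.mul_mem_left _ _ h)
    have hmod : qt E p.1 = ((⟨1, p.1 * E.b₂ / 12, 0, 0⟩ : VariableChange K) *
        (⟨Units.mk0 ((n : K) * m p.1) (mul_ne_zero hn (hm p.1 hp)), 0, 0, 0⟩ :
          VariableChange K)) •
        (⟨0, 0, 0, A * e p.1 ^ 2, B * e p.1 ^ 3⟩ : WeierstrassCurve (𝓞 K)).map
          (algebraMap (𝓞 K) K) := by
      rw [mul_smul, ← tc_eq hn (hm p.1 hp) ha hb (hem p.1 hp)]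
      exact qt_eq E p.1
    exact cc_eq_of_tr (tr_twist v _ _ hWeq hmod h5 h4 h2 h3)
  refine ⟨fun v => cc W v, e, m, fun v => abs_cc_le W v,
    fun d hd => ⟨he0 d hd, hm0 d hd, hem d hd⟩, fun p hp => ?_⟩
  set S : Finset (HeightOneSpectrum (𝓞 K)) := (finite_dvd (h60 p hp)).toFinset with hS
  have hSmem : ∀ v, v ∉ S → (6 : 𝓞 K) * e p.1 * V₀.Δ ∉ v.asIdeal := by
    intro v hv
    rw [hS, Set.Finite.mem_toFinset] at hv
    exact hv
  refine ⟨RB K + 2 * S.card, fun δ hδ0 => ?_⟩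
  have hσ1 : 1 < 1 + δ := by linarith
  have hws := summable_wp (K := K) hσ1
  have h6 := log_norm_LSeries' (qt E p.1) hδ0 p.2
  have h7 : |∑' v : HeightOneSpectrum (𝓞 K), wp (1 + δ) v *
      (cc (qt E p.1) v * Real.cos (p.2 * Real.log (nm v))) -
      ∑' v, wp (1 + δ) v * (cc W v * bs (e p.1) p.2 v)| ≤ 2 * S.card := by
    have hs1 : Summable fun v : HeightOneSpectrum (𝓞 K) => wp (1 + δ) v *
        (cc (qt E p.1) v * Real.cos (p.2 * Real.log (nm v))) := by
      refine summable_mul_bdd hws (fun v => (wp_pos _ v).le) (B := 2) fun v => ?_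
      rw [abs_mul]
      calc _ ≤ 2 * 1 := mul_le_mul (abs_cc_le _ v) (Real.abs_cos_le_one _) (abs_nonneg _)
            (by norm_num)
        _ = 2 := by norm_num
    have hs2 : Summable fun v : HeightOneSpectrum (𝓞 K) => wp (1 + δ) v *
        (cc W v * bs (e p.1) p.2 v) := by
      refine summable_mul_bdd hws (fun v => (wp_pos _ v).le) (B := 2) fun v => ?_
      rw [abs_mul]
      calc _ ≤ 2 * 1 := mul_le_mul (abs_cc_le W v) (abs_bs_le _ _ v) (abs_nonneg _)
            (by norm_num)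
        _ = 2 := by norm_num
    rw [← hs1.tsum_sub hs2, ← Real.norm_eq_abs]
    have hg : HasSum (fun v : HeightOneSpectrum (𝓞 K) => if v ∈ S then (2 : ℝ) else 0)
        (2 * S.card) := by
      have h8 : HasSum (fun v : HeightOneSpectrum (𝓞 K) => if v ∈ S then (2 : ℝ) else 0)
        (∑ v ∈ S, if v ∈ S then (2 : ℝ) else 0) :=
        hasSum_sum_of_ne_finset_zero fun v hv => if_neg hv
      have h9 : ∑ v ∈ S, (if v ∈ S then (2 : ℝ) else 0) = 2 * S.card := by
        rw [Finset.sum_congr rfl fun v hv => if_pos hv, Finset.sum_const, nsmul_eq_mul,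
          mul_comm]
      rwa [h9] at h8
    refine tsum_of_norm_bounded hg fun v => ?_
    rw [Real.norm_eq_abs]
    by_cases hv : v ∈ S
    · rw [if_pos hv]
      have h10 := wp_le_half hσ1.le v
      have h11 := wp_pos (1 + δ) v
      have h12 : |cc (qt E p.1) v * Real.cos (p.2 * Real.log (nm v)) -
          cc W v * bs (e p.1) p.2 v| ≤ 4 := by
        refine (abs_sub _ _).trans ?_
        have h13 : |cc (qt E p.1) v * Real.cos (p.2 * Real.log (nm v))| ≤ 2 := by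
          rw [abs_mul]
          calc _ ≤ 2 * 1 := mul_le_mul (abs_cc_le _ v) (Real.abs_cos_le_one _)
                (abs_nonneg _) (by norm_num)
            _ = 2 := by norm_num
        have h14 : |cc W v * bs (e p.1) p.2 v| ≤ 2 := by
          rw [abs_mul]
          calc _ ≤ 2 * 1 := mul_le_mul (abs_cc_le W v) (abs_bs_le _ _ v) (abs_nonneg _)
                (by norm_num)
            _ = 2 := by norm_num
        linarith
      rw [← mul_sub, abs_mul, abs_of_pos h11]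
      nlinarith [abs_nonneg (cc (qt E p.1) v * Real.cos (p.2 * Real.log (nm v)) -
          cc W v * bs (e p.1) p.2 v)]
    · rw [if_neg hv, hloc p hp v (hSmem v hv)]
      have : wp (1 + δ) v * ((chi v (e p.1) : ℝ) * cc W v *
          Real.cos (p.2 * Real.log (nm v))) -
            wp (1 + δ) v * (cc W v * bs (e p.1) p.2 v) = 0 := by
        rw [bs]; ring
      rw [this, abs_zero]
  have h9 := abs_le.mp h6
  have h10 := abs_le.mp h7
  rw [abs_le]
  constructor <;> linarith [h9.1, h9.2, h10.1, h10.2]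

/-- Bounds for linear combinations of the logarithms. -/
theorem functional (E : WeierstrassCurve K) {c : HeightOneSpectrum (𝓞 K) → ℝ} {e : K → 𝓞 K}
    (hc : ∀ v, |c v| ≤ 2)
    (hlog : ∀ p : K × ℝ, p.1 ≠ 0 → ∃ R : ℝ, ∀ δ : ℝ, 0 < δ →
        |Real.log ‖(qt E p.1).LSeries ((3 / 2 + δ : ℝ) + p.2 * Complex.I)‖ -
          ∑' v, wp (1 + δ) v * (c v * bs (e p.1) p.2 v)| ≤ R)
    {ι : Type*} [Fintype ι] (p : ι → K × ℝ) (hp : ∀ i, (p i).1 ≠ 0) (x : ι → ℝ) {κ : ℝ}
    (hκ : UB (fun v => |∑ i, x i * bs (e (p i).1) (p i).2 v|) κ) :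
    ∃ C : ℝ, ∀ᶠ σ : ℝ in 𝓝[>] (3 / 2),
      ∑ i, x i * Real.log ‖(qt E (p i).1).LSeries (σ + (p i).2 * Complex.I)‖ ≤
        2 * κ * Real.log (1 / (σ - 3 / 2)) + C := by
  choose R hR using fun i => hlog (p i) (hp i)
  have hb := hκ.1
  obtain ⟨-, C, hC⟩ := hκ
  refine ⟨2 * C + ∑ i, |x i| * R i, ?_⟩
  have hshift : Tendsto (fun σ : ℝ => σ - 1 / 2) (𝓝[>] (3 / 2)) (𝓝[>] 1) := by
    refine tendsto_nhdsWithin_iff.mpr ⟨?_, ?_⟩
    · have h : Tendsto (fun σ : ℝ => σ - 1 / 2) (𝓝 (3 / 2)) (𝓝 (3 / 2 - 1 / 2)) :=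
        tendsto_id.sub_const _
      have e : (3 / 2 - 1 / 2 : ℝ) = 1 := by norm_num
      rw [e] at h
      exact h.mono_left nhdsWithin_le_nhds
    · filter_upwards [self_mem_nhdsWithin] with σ hσ
      have : (3 / 2 : ℝ) < σ := hσ
      exact (by linarith : (1 : ℝ) < σ - 1 / 2)
  filter_upwards [hshift.eventually hC, self_mem_nhdsWithin] with σ h1 hσ
  have hσ' : (3 / 2 : ℝ) < σ := hσ
  have hδ0 : 0 < σ - 3 / 2 := by linarith
  have e1 : ((3 / 2 + (σ - 3 / 2) : ℝ) : ℂ) = σ := by norm_num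
  have e2 : 1 + (σ - 3 / 2) = σ - 1 / 2 := by ring
  have e3 : σ - 1 / 2 - 1 = σ - 3 / 2 := by ring
  have hσ1 : 1 < σ - 1 / 2 := by linarith
  rw [e3] at h1
  have hws := summable_wp (K := K) hσ1
  -- termwise
  have hterm : ∀ i, x i * Real.log ‖(qt E (p i).1).LSeries (σ + (p i).2 * Complex.I)‖ ≤
      x i * ∑' v, wp (σ - 1 / 2) v * (c v * bs (e (p i).1) (p i).2 v) + |x i| * R i := by
    intro i
    have h2 := hR i (σ - 3 / 2) hδ0
    rw [e1, e2] at h2
    have h3 : x i * (Real.log ‖(qt E (p i).1).LSeries (σ + (p i).2 * Complex.I)‖ -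
        ∑' v, wp (σ - 1 / 2) v * (c v * bs (e (p i).1) (p i).2 v)) ≤ |x i| * R i := by
      refine (le_abs_self _).trans ?_
      rw [abs_mul]
      exact mul_le_mul_of_nonneg_left h2 (abs_nonneg _)
    linarith
  have hcb : ∀ i v, |c v * bs (e (p i).1) (p i).2 v| ≤ 2 := fun i v => by
    rw [abs_mul]
    calc _ ≤ 2 * 1 := mul_le_mul (hc v) (abs_bs_le _ _ v) (abs_nonneg _) (by norm_num)
      _ = 2 := by norm_num
  have hsum : ∀ i, Summable fun v => wp (σ - 1 / 2) v * (c v * bs (e (p i).1) (p i).2 v) :=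
    fun i => summable_mul_bdd hws (fun v => (wp_pos _ v).le) (hcb i)
  have hswap : ∑ i, x i * ∑' v, wp (σ - 1 / 2) v * (c v * bs (e (p i).1) (p i).2 v) =
      ∑' v, wp (σ - 1 / 2) v * (c v * ∑ i, x i * bs (e (p i).1) (p i).2 v) := by
    have h2 : ∀ i, x i * ∑' v, wp (σ - 1 / 2) v * (c v * bs (e (p i).1) (p i).2 v) =
        ∑' v, x i * (wp (σ - 1 / 2) v * (c v * bs (e (p i).1) (p i).2 v)) := fun i =>
      tsum_mul_left.symm
    simp_rw [h2]
    rw [← Summable.tsum_finsetSum fun i _ => (hsum i).mul_left (x i)]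
    refine tsum_congr fun v => ?_
    rw [Finset.mul_sum, Finset.mul_sum]
    exact Finset.sum_congr rfl fun i _ => by ring
  have hmain : ∑' v, wp (σ - 1 / 2) v * (c v * ∑ i, x i * bs (e (p i).1) (p i).2 v) ≤
      2 * ∑' v, wp (σ - 1 / 2) v * |∑ i, x i * bs (e (p i).1) (p i).2 v| := by
    rw [← tsum_mul_left]
    have hsr := (summable_of_bdd hb hσ1).mul_left 2
    have hle : ∀ v, |wp (σ - 1 / 2) v * (c v * ∑ i, x i * bs (e (p i).1) (p i).2 v)| ≤
        2 * (wp (σ - 1 / 2) v * |∑ i, x i * bs (e (p i).1) (p i).2 v|) := fun v => by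
      rw [abs_mul, abs_mul, abs_of_pos (wp_pos _ v)]
      have h2 : |c v| * |∑ i, x i * bs (e (p i).1) (p i).2 v| ≤
          2 * |∑ i, x i * bs (e (p i).1) (p i).2 v| :=
        mul_le_mul_of_nonneg_right (hc v) (abs_nonneg _)
      nlinarith [mul_le_mul_of_nonneg_left h2 (wp_pos (σ - 1 / 2) v).le]
    have hsl : Summable fun v =>
        wp (σ - 1 / 2) v * (c v * ∑ i, x i * bs (e (p i).1) (p i).2 v) :=
      Summable.of_norm_bounded hsr fun v => by rw [Real.norm_eq_abs]; exact hle v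
    exact hsl.tsum_le_tsum (fun v => (le_abs_self _).trans (hle v)) hsr
  calc ∑ i, x i * Real.log ‖(qt E (p i).1).LSeries (σ + (p i).2 * Complex.I)‖
      ≤ ∑ i, (x i * ∑' v, wp (σ - 1 / 2) v * (c v * bs (e (p i).1) (p i).2 v) +
          |x i| * R i) := Finset.sum_le_sum fun i _ => hterm i
    _ = ∑' v, wp (σ - 1 / 2) v * (c v * ∑ i, x i * bs (e (p i).1) (p i).2 v) +
          ∑ i, |x i| * R i := by rw [Finset.sum_add_distrib, hswap]
    _ ≤ 2 * (κ * Real.log (1 / (σ - 3 / 2)) + C) + ∑ i, |x i| * R i := by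
        linarith
    _ = _ := by ring

end Pool.Agent.Lib.MP_bf61d2_nt
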