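import Pool.Agent.Lib.MP_bf61d2_nt.Joint.QuadCos

set_option autoImplicit false

/-!
Bessel inequality for all quadratic twists and all points of the edge together.
-/

namespace Pool.Agent.Lib.MP_bf61d2_nt

open Filter Topology NumberField IsDedekindDomain WeierstrassCurve

variable {K : Type*} [Field K] [NumberField K]

/-- The quadratic twist. -/
def qt (E : WeierstrassCurve K) (d : K) : WeierstrassCurve K :=
  ⟨0, d * (E.b₂ / 4), 0, d ^ 2 * (E.b₄ / 2), d ^ 3 * (E.b₆ / 4)⟩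

lemma qt_eq (E : WeierstrassCurve K) (d : K) :
    qt E d = (⟨1, d * E.b₂ / 12, 0, 0⟩ : VariableChange K) •
      tc (-E.c₄ / 48) (-E.c₆ / 864) d := by
  rw [variableChange_def]
  ext
  · simp [qt, tc]
  · simp only [qt, tc, Units.val_inv_eq_inv_val, Units.val_one]
    field_simp
    ring
  · simp [qt, tc]
  · simp only [qt, tc, Units.val_inv_eq_inv_val, Units.val_one, c₄]
    field_simp
    ring
  · simp only [qt, tc, Units.val_inv_eq_inv_val, Units.val_one, c₄, c₆]
    field_simp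
    ring

/-- The final inequality. -/
lemma joint_final {τ : Type*} (T : Finset τ) {C₂ C₃ R : ℝ} (h2 : 0 ≤ C₂) (h3 : 0 ≤ C₃)
    (hR : 0 ≤ R) :
    ∃ C : ℝ, ∀ L : ℝ, 1 ≤ L → ∀ X Y : τ → ℝ,
      ∑ t ∈ T, X t ^ 2 ≤ (L + C₂ + C₃ * T.card) * (4 * (L + C₂)) →
      (∀ t ∈ T, |Y t - X t| ≤ R) → ∑ t ∈ T, Y t ^ 2 ≤ 4 * L ^ 2 + C * L := by
  set D : ℝ := C₂ + C₃ * T.card with hD
  have hD0 : 0 ≤ D := by positivity
  refine ⟨4 * (D + C₂) + 4 * D * C₂ + T.card * (4 * R + 4 * D * R + R ^ 2), ?_⟩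
  intro L hL X Y hX hY
  have hX' : ∑ t ∈ T, X t ^ 2 ≤ 4 * (L + D) * (L + C₂) := by
    refine hX.trans (le_of_eq ?_)
    rw [hD]; ring
  have hX2 : ∑ t ∈ T, X t ^ 2 ≤ (2 * (L + D)) ^ 2 := by
    refine hX'.trans ?_
    have h5 : C₂ ≤ D := by rw [hD]; nlinarith [Nat.cast_nonneg (α := ℝ) T.card]
    nlinarith
  have hXt : ∀ t ∈ T, |X t| ≤ 2 * (L + D) := by
    intro t ht
    have h5 : X t ^ 2 ≤ (2 * (L + D)) ^ 2 :=
      (Finset.single_le_sum (f := fun t => X t ^ 2) (fun t _ => sq_nonneg _) ht).trans hX2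
    exact abs_le_of_sq_le_sq h5 (by linarith)
  have hterm : ∀ t ∈ T, Y t ^ 2 ≤ X t ^ 2 + (4 * (L + D) * R + R ^ 2) := by
    intro t ht
    have h5 := hXt t ht
    have h6 := hY t ht
    have h7 : (Y t - X t) ^ 2 ≤ R ^ 2 := by
      rw [← sq_abs]
      exact pow_le_pow_left₀ (abs_nonneg _) h6 2
    have h8 : X t * (Y t - X t) ≤ 2 * (L + D) * R := by
      refine (le_abs_self _).trans ?_
      rw [abs_mul]
      exact mul_le_mul h5 h6 (abs_nonneg _) (by linarith)
    nlinarith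
  have hL2 : 0 ≤ L := by linarith
  calc ∑ t ∈ T, Y t ^ 2 ≤ ∑ t ∈ T, (X t ^ 2 + (4 * (L + D) * R + R ^ 2)) :=
        Finset.sum_le_sum hterm
    _ = ∑ t ∈ T, X t ^ 2 + T.card * (4 * (L + D) * R + R ^ 2) := by
        rw [Finset.sum_add_distrib, Finset.sum_const, nsmul_eq_mul]
    _ ≤ 4 * (L + D) * (L + C₂) + T.card * (4 * (L + D) * R + R ^ 2) := by linarith
    _ = 4 * L ^ 2 + (4 * (D + C₂) + T.card * (4 * R)) * L + (4 * D * C₂ +
          T.card * (4 * D * R + R ^ 2)) * 1 := by ring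
    _ ≤ 4 * L ^ 2 + (4 * (D + C₂) + T.card * (4 * R)) * L + (4 * D * C₂ +
          T.card * (4 * D * R + R ^ 2)) * L := by
        gcongr
    _ = _ := by ring

theorem joint_bessel (E : WeierstrassCurve K) [E.IsElliptic] (F : Finset (K × ℝ))
    (hF0 : ∀ p ∈ F, p.1 ≠ 0)
    (hF : ∀ p ∈ F, ∀ q ∈ F, p ≠ q → p.2 = q.2 → ¬ IsSquare (p.1 * q.1)) :
    ∃ C : ℝ, ∀ᶠ σ : ℝ in 𝓝[>] (3 / 2),
      ∑ p ∈ F, Real.log ‖(qt E p.1).LSeries (σ + p.2 * Complex.I)‖ ^ 2 ≤
        4 * Real.log (1 / (σ - 3 / 2)) ^ 2 + C * Real.log (1 / (σ - 3 / 2)) := by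
  classical
  set a : K := -E.c₄ / 48 with ha0
  set b : K := -E.c₆ / 864 with hb0
  have hab : 4 * a ^ 3 + 27 * b ^ 2 ≠ 0 := by
    intro h
    have h1 : E.Δ ≠ 0 := E.isUnit_Δ.ne_zero
    have h2 := E.c_relation
    have h3 : 4 * a ^ 3 + 27 * b ^ 2 = -(1728 * E.Δ) / 27648 := by
      rw [h2, ha0, hb0]; ring
    rw [h3] at h
    apply h1
    have h5 : 1728 * E.Δ = 0 := by linear_combination (-27648) * h
    rcases mul_eq_zero.mp h5 with h6 | h6
    · norm_num at h6
    · exact h6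
  obtain ⟨A, B, n, hn0, ha, hb⟩ := exists_model a b
  have hn : (n : K) ≠ 0 := by simpa using hn0
  choose! e m he0 hm0 hem using fun (d : K) (hd : d ≠ 0) => exists_sqrep (K := K) hd
  have hm : ∀ d, d ≠ 0 → (m d : K) ≠ 0 := fun d hd => by simpa using hm0 d hd
  set W : WeierstrassCurve K := tc a b 1 with hW
  set V₀ : WeierstrassCurve (𝓞 K) := ⟨0, 0, 0, A, B⟩ with hV₀
  have hWeq : W = (⟨Units.mk0 ((n : K) * (1 : 𝓞 K)) (mul_ne_zero hn (by simp)), 0, 0, 0⟩ :
      VariableChange K) • V₀.map (algebraMap (𝓞 K) K) := by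
    have h := tc_eq (a := a) (b := b) (d := 1) (e := 1) (m := 1) hn (by simp) ha hb (by simp)
    rw [hW, h]
    simp only [one_pow, mul_one]
    rfl
  have hΔ0 : V₀.Δ ≠ 0 := by
    intro h0
    apply hab
    have h1 : V₀.Δ = -16 * (4 * A ^ 3 + 27 * B ^ 2) := by
      simp only [hV₀, Δ, b₂, b₄, b₆, b₈]
      ring
    rw [h1] at h0
    have h2 : (4 * A ^ 3 + 27 * B ^ 2 : 𝓞 K) = 0 := by
      rcases mul_eq_zero.mp h0 with h | h
      · norm_num at h
      · exact h
    have h3 := congrArg (algebraMap (𝓞 K) K) h2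
    rw [map_add, map_mul, map_mul, map_pow, map_pow, map_ofNat, map_ofNat, map_zero] at h3
    have h4 : 4 * (a * (n : K) ^ 4) ^ 3 + 27 * (b * (n : K) ^ 6) ^ 2 = 0 := by
      rw [ha, hb]; exact h3
    have h5 : (4 * a ^ 3 + 27 * b ^ 2) * (n : K) ^ 12 = 0 := by linear_combination h4
    rcases mul_eq_zero.mp h5 with h | h
    · exact h
    · exact absurd h (pow_ne_zero _ hn)
  -- the exceptional places
  have h60 : ∀ p ∈ F, (6 : 𝓞 K) * e p.1 * V₀.Δ ≠ 0 := fun p hp =>
    mul_ne_zero (mul_ne_zero (by norm_num) (he0 p.1 (hF0 p hp))) hΔ0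
  have hloc : ∀ p ∈ F, ∀ v : HeightOneSpectrum (𝓞 K), (6 : 𝓞 K) * e p.1 * V₀.Δ ∉ v.asIdeal →
      cc (qt E p.1) v = chi v (e p.1) * cc W v := by
    intro p hp v hv
    have h2 : (2 : 𝓞 K) ∉ v.asIdeal := fun h => hv (by
      have : (6 : 𝓞 K) * e p.1 * V₀.Δ = 3 * e p.1 * V₀.Δ * 2 := by ring
      rw [this]; exact Ideal.mul_mem_left _ _ h)
    have h3 : (3 : 𝓞 K) ∉ v.asIdeal := fun h => hv (by
      have : (6 : 𝓞 K) * e p.1 * V₀.Δ = 2 * e p.1 * V₀.Δ * 3 := by ring
      rw [this]; exact Ideal.mul_mem_left _ _ h)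
    have h4 : e p.1 ∉ v.asIdeal := fun h => hv (by
      have : (6 : 𝓞 K) * e p.1 * V₀.Δ = 6 * V₀.Δ * e p.1 := by ring
      rw [this]; exact Ideal.mul_mem_left _ _ h)
    have h5 : V₀.Δ ∉ v.asIdeal := fun h => hv (Ideal.mul_mem_left _ _ h)
    have hmod : qt E p.1 = ((⟨1, p.1 * E.b₂ / 12, 0, 0⟩ : VariableChange K) *
        (⟨Units.mk0 ((n : K) * m p.1) (mul_ne_zero hn (hm p.1 (hF0 p hp))), 0, 0, 0⟩ :
          VariableChange K)) •
        (⟨0, 0, 0, A * e p.1 ^ 2, B * e p.1 ^ 3⟩ : WeierstrassCurve (𝓞 K)).map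
          (algebraMap (𝓞 K) K) := by
      rw [mul_smul, ← tc_eq hn (hm p.1 (hF0 p hp)) ha hb (hem p.1 (hF0 p hp))]
      exact qt_eq E p.1
    exact cc_eq_of_tr (tr_twist v _ _ hWeq hmod h5 h4 h2 h3)
  set S : K × ℝ → Finset (HeightOneSpectrum (𝓞 K)) := fun p =>
    if hp : p ∈ F then (finite_dvd (h60 p hp)).toFinset else ∅ with hS
  have hSmem : ∀ p ∈ F, ∀ v, v ∉ S p → (6 : 𝓞 K) * e p.1 * V₀.Δ ∉ v.asIdeal := by
    intro p hp v hv
    simp only [hS, dif_pos hp, Set.Finite.mem_toFinset] at hv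
    exact hv
  obtain ⟨C₂, hC₂0, hC₂⟩ := PS_bound K
  -- the off diagonal bound
  have hoff : ∃ C : ℝ, 0 ≤ C ∧ ∀ᶠ σ : ℝ in 𝓝[>] 1, ∀ p ∈ F, ∀ q ∈ F, p ≠ q →
      |∑' v, wp σ v * ((chi v (e p.1 * e q.1) : ℝ) *
        Real.cos ((p.2 - q.2) * Real.log (nm v)))| ≤ C := by
    have h1 : ∀ x ∈ F ×ˢ F, ∃ C : ℝ, 0 ≤ C ∧ (x.1 ≠ x.2 → ∀ᶠ σ : ℝ in 𝓝[>] 1,
        |∑' v, wp σ v * ((chi v (e x.1.1 * e x.2.1) : ℝ) *
          Real.cos ((x.1.2 - x.2.2) * Real.log (nm v)))| ≤ C) := by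
      intro x hx
      obtain ⟨hx1, hx2⟩ := Finset.mem_product.mp hx
      by_cases h : x.1 = x.2
      · exact ⟨0, le_rfl, fun h' => absurd h h'⟩
      · obtain ⟨C, hC0, hC⟩ := chi_cos_bound (e := e x.1.1 * e x.2.1) (u := x.1.2 - x.2.2)
          (mul_ne_zero (he0 _ (hF0 _ hx1)) (he0 _ (hF0 _ hx2)))
          (fun hu => isSquare_mul_iff (hm _ (hF0 _ hx1)) (hm _ (hF0 _ hx2))
            (hem _ (hF0 _ hx1)) (hem _ (hF0 _ hx2)) (hF _ hx1 _ hx2 h (sub_eq_zero.mp hu)))
        exact ⟨C, hC0, fun _ => hC⟩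
    choose! Cf hCf using h1
    refine ⟨∑ x ∈ F ×ˢ F, Cf x, Finset.sum_nonneg fun x hx => (hCf x hx).1, ?_⟩
    have h2 : ∀ᶠ σ : ℝ in 𝓝[>] 1, ∀ x ∈ F ×ˢ F, x.1 ≠ x.2 →
        |∑' v, wp σ v * ((chi v (e x.1.1 * e x.2.1) : ℝ) *
          Real.cos ((x.1.2 - x.2.2) * Real.log (nm v)))| ≤ Cf x := by
      rw [Filter.eventually_all_finset]
      intro x hx
      by_cases h : x.1 = x.2
      · exact Eventually.of_forall fun σ h' => absurd h h'
      · exact ((hCf x hx).2 h).mono fun σ h' _ => h'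
    filter_upwards [h2] with σ hσ p hp q hq hne
    have hx : (p, q) ∈ F ×ˢ F := Finset.mem_product.mpr ⟨hp, hq⟩
    exact (hσ (p, q) hx hne).trans
      (Finset.single_le_sum (f := Cf) (fun x hx => (hCf x hx).1) hx)
  obtain ⟨C₃, hC₃0, hC₃⟩ := hoff
  set R : ℝ := RB K + 2 * ∑ p ∈ F, ((S p).card : ℝ) with hR
  have hR0 : 0 ≤ R := by
    have h' : 0 ≤ ∑ p ∈ F, ((S p).card : ℝ) := Finset.sum_nonneg fun _ _ => Nat.cast_nonneg _
    exact add_nonneg (RB_nonneg (K := K)) (mul_nonneg (by norm_num) h')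
  obtain ⟨C₄, hfin⟩ := joint_final F hC₂0 hC₃0 hR0
  have hshift : Tendsto (fun σ : ℝ => σ - 3 / 2) (𝓝[>] (3 / 2)) (𝓝[>] 0) := by
    refine tendsto_nhdsWithin_iff.mpr ⟨?_, ?_⟩
    · have h : Tendsto (fun σ : ℝ => σ - 3 / 2) (𝓝 (3 / 2)) (𝓝 (3 / 2 - 3 / 2)) :=
        tendsto_id.sub_const _
      rw [sub_self] at h
      exact h.mono_left nhdsWithin_le_nhds
    · filter_upwards [self_mem_nhdsWithin] with σ hσ
      have : (3 / 2 : ℝ) < σ := hσ
      exact (by linarith : (0 : ℝ) < σ - 3 / 2)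
  have hmain : ∀ᶠ δ : ℝ in 𝓝[>] 0, ∑ p ∈ F,
      Real.log ‖(qt E p.1).LSeries ((3 / 2 + δ : ℝ) + p.2 * Complex.I)‖ ^ 2 ≤
      4 * Real.log (1 / δ) ^ 2 + C₄ * Real.log (1 / δ) := by
    filter_upwards [self_mem_nhdsWithin,
      tendsto_one_add.eventually hC₂, tendsto_one_add.eventually hC₃,
      tendsto_log_inv.eventually (eventually_ge_atTop 1)] with δ hδ h2 h3 h5
    have hδ0 : 0 < δ := hδ
    have hσ1 : 1 < 1 + δ := by linarith
    rw [add_sub_cancel_left] at h2
    set Lg : ℝ := Real.log (1 / δ) with hLg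
    have hws := summable_wp (K := K) hσ1
    have hPS := (abs_le.mp h2).2
    set c : HeightOneSpectrum (𝓞 K) → ℝ := fun v => cc W v with hc
    have hcb : ∀ v, |c v| ≤ 2 := fun v => abs_cc_le W v
    set ef : K × ℝ → HeightOneSpectrum (𝓞 K) → ℝ := fun p v =>
      (chi v (e p.1) : ℝ) * Real.cos (p.2 * Real.log (nm v)) with hef
    set gf : K × ℝ → HeightOneSpectrum (𝓞 K) → ℝ := fun p v =>
      (chi v (e p.1) : ℝ) * Real.sin (p.2 * Real.log (nm v)) with hgf
    have hefb : ∀ p v, |ef p v| ≤ 1 := fun p v => by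
      rw [hef]
      simp only
      rw [abs_mul]
      exact mul_le_one₀ (abs_chi_real_le v _) (abs_nonneg _) (Real.abs_cos_le_one _)
    have hgfb : ∀ p v, |gf p v| ≤ 1 := fun p v => by
      rw [hgf]
      simp only
      rw [abs_mul]
      exact mul_le_one₀ (abs_chi_real_le v _) (abs_nonneg _) (Real.abs_sin_le_one _)
    have hcross : ∀ p q v, ef p v * ef q v + gf p v * gf q v =
        (chi v (e p.1 * e q.1) : ℝ) * Real.cos ((p.2 - q.2) * Real.log (nm v)) := by
      intro p q v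
      simp only [hef, hgf]
      rw [chi_mul, sub_mul, Real.cos_sub]
      push_cast
      ring
    have hbes := bessel (fun v => wp (1 + δ) v) c ef gf F (P := Lg + C₂) (C := C₃) (B := 2) hws
      (fun v => (wp_pos _ v).le) hcb hefb hgfb
      (fun p _ => by
        have hle : ∀ v : HeightOneSpectrum (𝓞 K), wp (1 + δ) v *
            (ef p v * ef p v + gf p v * gf p v) ≤ wp (1 + δ) v := by
          intro v
          rw [hcross, sub_self, zero_mul, Real.cos_zero, mul_one]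
          have h6 := (abs_le.mp (abs_chi_real_le v (e p.1 * e p.1))).2
          calc _ ≤ wp (1 + δ) v * 1 :=
                mul_le_mul_of_nonneg_left h6 (wp_pos _ v).le
            _ = _ := mul_one _
        have hs : Summable fun v : HeightOneSpectrum (𝓞 K) => wp (1 + δ) v *
            (ef p v * ef p v + gf p v * gf p v) := by
          refine Summable.of_nonneg_of_le (fun v => mul_nonneg (wp_pos _ v).le (by
            have h6 := mul_self_nonneg (ef p v)
            have h7 := mul_self_nonneg (gf p v)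
            linarith)) hle hws
        have h8 := hs.tsum_le_tsum hle hws
        have h9 : ∑' v : HeightOneSpectrum (𝓞 K), wp (1 + δ) v = PS K (1 + δ) := rfl
        rw [h9] at h8
        linarith)
      (fun p hp q hq hne => by
        simp_rw [hcross]
        exact h3 p hp q hq hne)
      (by linarith) hC₃0
    have hcsq : ∑' v, wp (1 + δ) v * c v ^ 2 ≤ 4 * PS K (1 + δ) := by
      have h6 : ∀ v, wp (1 + δ) v * c v ^ 2 ≤ 4 * wp (1 + δ) v := by
        intro v
        have h7 : c v ^ 2 ≤ 4 := by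
          rw [← sq_abs]
          calc |c v| ^ 2 ≤ 2 ^ 2 := pow_le_pow_left₀ (abs_nonneg _) (hcb v) 2
            _ = 4 := by norm_num
        nlinarith [wp_pos (1 + δ) v]
      have h8 : Summable fun v => wp (1 + δ) v * c v ^ 2 :=
        Summable.of_nonneg_of_le (fun v => mul_nonneg (wp_pos _ v).le (sq_nonneg _)) h6
          (hws.mul_left 4)
      calc ∑' v, wp (1 + δ) v * c v ^ 2 ≤ ∑' v, 4 * wp (1 + δ) v :=
            h8.tsum_le_tsum h6 (hws.mul_left 4)
        _ = 4 * PS K (1 + δ) := tsum_mul_left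
    refine hfin Lg h5 (fun p => ∑' v, wp (1 + δ) v * (c v * ef p v))
      (fun p => Real.log ‖(qt E p.1).LSeries ((3 / 2 + δ : ℝ) + p.2 * Complex.I)‖) ?_ ?_
    · refine hbes.trans ?_
      have hpos : 0 ≤ Lg + C₂ + C₃ * F.card :=
        add_nonneg (add_nonneg (by linarith) hC₂0) (mul_nonneg hC₃0 (Nat.cast_nonneg _))
      exact mul_le_mul_of_nonneg_left (hcsq.trans (by linarith)) hpos
    · intro p hp
      have h6 := log_norm_LSeries' (qt E p.1) hδ0 p.2
      have h7 : |∑' v : HeightOneSpectrum (𝓞 K), wp (1 + δ) v *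
          (cc (qt E p.1) v * Real.cos (p.2 * Real.log (nm v))) -
          ∑' v, wp (1 + δ) v * (c v * ef p v)| ≤ 2 * (S p).card := by
        have hs1 : Summable fun v : HeightOneSpectrum (𝓞 K) => wp (1 + δ) v *
            (cc (qt E p.1) v * Real.cos (p.2 * Real.log (nm v))) := by
          refine summable_mul_bdd hws (fun v => (wp_pos _ v).le) (B := 2) fun v => ?_
          rw [abs_mul]
          calc _ ≤ 2 * 1 := mul_le_mul (abs_cc_le _ v) (Real.abs_cos_le_one _) (abs_nonneg _)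
                (by norm_num)
            _ = 2 := by norm_num
        have hs2 : Summable fun v : HeightOneSpectrum (𝓞 K) => wp (1 + δ) v *
            (c v * ef p v) := by
          refine summable_mul_bdd hws (fun v => (wp_pos _ v).le) (B := 2) fun v => ?_
          rw [abs_mul]
          calc _ ≤ 2 * 1 := mul_le_mul (hcb v) (hefb p v) (abs_nonneg _)
                (by norm_num)
            _ = 2 := by norm_num
        rw [← hs1.tsum_sub hs2, ← Real.norm_eq_abs]
        have hg : HasSum (fun v : HeightOneSpectrum (𝓞 K) => if v ∈ S p then (2 : ℝ) else 0)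
            (2 * (S p).card) := by
          have h8 : HasSum (fun v : HeightOneSpectrum (𝓞 K) => if v ∈ S p then (2 : ℝ) else 0)
            (∑ v ∈ S p, if v ∈ S p then (2 : ℝ) else 0) :=
            hasSum_sum_of_ne_finset_zero fun v hv => if_neg hv
          have h9 : ∑ v ∈ S p, (if v ∈ S p then (2 : ℝ) else 0) = 2 * (S p).card := by
            rw [Finset.sum_congr rfl fun v hv => if_pos hv, Finset.sum_const, nsmul_eq_mul,
              mul_comm]
          rwa [h9] at h8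
        refine tsum_of_norm_bounded hg fun v => ?_
        rw [Real.norm_eq_abs]
        by_cases hv : v ∈ S p
        · rw [if_pos hv]
          have h10 := wp_le_half hσ1.le v
          have h11 := wp_pos (1 + δ) v
          have h12 : |cc (qt E p.1) v * Real.cos (p.2 * Real.log (nm v)) -
              c v * ef p v| ≤ 4 := by
            refine (abs_sub _ _).trans ?_
            have h13 : |cc (qt E p.1) v * Real.cos (p.2 * Real.log (nm v))| ≤ 2 := by
              rw [abs_mul]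
              calc _ ≤ 2 * 1 := mul_le_mul (abs_cc_le _ v) (Real.abs_cos_le_one _)
                    (abs_nonneg _) (by norm_num)
                _ = 2 := by norm_num
            have h14 : |c v * ef p v| ≤ 2 := by
              rw [abs_mul]
              calc _ ≤ 2 * 1 := mul_le_mul (hcb v) (hefb p v) (abs_nonneg _)
                    (by norm_num)
                _ = 2 := by norm_num
            linarith
          rw [← mul_sub, abs_mul, abs_of_pos h11]
          nlinarith [abs_nonneg (cc (qt E p.1) v * Real.cos (p.2 * Real.log (nm v)) -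
              c v * ef p v)]
        · rw [if_neg hv, hloc p hp v (hSmem p hp v hv)]
          have : wp (1 + δ) v * ((chi v (e p.1) : ℝ) * cc W v *
              Real.cos (p.2 * Real.log (nm v))) - wp (1 + δ) v * (c v * ef p v) = 0 := by
            rw [hc, hef]; ring
          rw [this, abs_zero]
      have h8 : (2 : ℝ) * (S p).card ≤ 2 * ∑ p ∈ F, ((S p).card : ℝ) := by
        have := Finset.single_le_sum (f := fun p => ((S p).card : ℝ))
          (fun p _ => Nat.cast_nonneg _) hp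
        linarith
      have h9 := abs_le.mp h6
      have h10 := abs_le.mp h7
      rw [abs_le, hR]
      constructor <;> linarith [h9.1, h9.2, h10.1, h10.2]
  refine ⟨C₄, ?_⟩
  have h := hshift.eventually hmain
  refine h.mono fun σ hσ => ?_
  have e1 : ((3 / 2 + (σ - 3 / 2) : ℝ) : ℂ) = σ := by norm_num
  simp_rw [e1] at hσ
  exact hσ

end Pool.Agent.Lib.MP_bf61d2_nt
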