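import Pool.Agent.Lib.MP_bf61d2_nt.Joint.CS

set_option autoImplicit false

/-!
Sums of a quadratic character with a cosine weight over the places of a number field.
-/

namespace Pool.Agent.Lib.MP_bf61d2_nt

open NumberField IsDedekindDomain Filter Topology

section Ext

variable {K L : Type*} [Field K] [NumberField K] [Field L] [NumberField L] [Algebra K L]

/-- The weighted sum over the places above. -/
noncomputable def phg (L : Type*) [Field L] [NumberField L] [Algebra K L] (g : ℕ → ℝ) (σ : ℝ)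
    (v : HeightOneSpectrum (𝓞 K)) : ℝ :=
  ∑' w : (dn (K := K) (L := L)) ⁻¹' {v}, wp σ (w : HeightOneSpectrum (𝓞 L)) *
    g (nm (w : HeightOneSpectrum (𝓞 L)))

omit [NumberField K] in
lemma phg_eq (g : ℕ → ℝ) (σ : ℝ) (v : HeightOneSpectrum (𝓞 K))
    (T : Finset (HeightOneSpectrum (𝓞 L)))
    (hT : ∀ w, w ∈ T ↔ dn (K := K) w = v) : phg L g σ v = ∑ w ∈ T, wp σ w * g (nm w) := by
  have hset : ((dn (K := K) (L := L)) ⁻¹' {v} : Set (HeightOneSpectrum (𝓞 L))) =
      (T : Set (HeightOneSpectrum (𝓞 L))) := by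
    ext w
    rw [Set.mem_preimage, Set.mem_singleton_iff, Finset.mem_coe, hT]
  rw [phg, hset, Finset.tsum_subtype' _ (fun w => wp σ w * g (nm w))]

lemma abs_phg_le (hn : Module.finrank (𝓞 K) (𝓞 L) = 2) {g : ℕ → ℝ} (hg : ∀ n, |g n| ≤ 1)
    {σ : ℝ} (hσ : 1 ≤ σ) (v : HeightOneSpectrum (𝓞 K)) : |phg L g σ v| ≤ 1 := by
  obtain ⟨T, hT, hcard⟩ := exists_fiber (L := L) hn v
  rw [phg_eq g σ v T hT]
  calc |∑ w ∈ T, wp σ w * g (nm w)| ≤ ∑ _w ∈ T, (1 / 2 : ℝ) := by
        refine (Finset.abs_sum_le_sum_abs _ _).trans (Finset.sum_le_sum fun w _ => ?_)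
        rw [abs_mul, abs_of_pos (wp_pos σ w)]
        calc wp σ w * |g (nm w)| ≤ 1 / 2 * 1 :=
              mul_le_mul (wp_le_half hσ w) (hg _) (abs_nonneg _) (by norm_num)
          _ = 1 / 2 := by norm_num
    _ = T.card * (1 / 2) := by rw [Finset.sum_const, nsmul_eq_mul]
    _ ≤ 2 * (1 / 2) := by
        have : (T.card : ℝ) ≤ 2 := by exact_mod_cast hcard
        gcongr
    _ = 1 := by norm_num

/-- Local comparison. -/
lemma phg_sub_le [IsGalois K L] [FiniteDimensional K L]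
    (hn : Module.finrank (𝓞 K) (𝓞 L) = 2) {g : ℕ → ℝ} (hg : ∀ n, |g n| ≤ 1)
    {e : 𝓞 K} {θ : 𝓞 L} (hθ : θ ^ 2 = algebraMap (𝓞 K) (𝓞 L) e)
    (hθK : (θ : L) ∉ (⊥ : IntermediateField K L)) {σ : ℝ} (hσ : 1 ≤ σ)
    (v : HeightOneSpectrum (𝓞 K)) (h2 : (2 : 𝓞 K) ∉ v.asIdeal) (he : e ∉ v.asIdeal) :
    |phg L g σ v - (1 + chi v e) * (wp σ v * g (nm v))| ≤ 2 / (pr v : ℝ) ^ 2 := by
  classical
  obtain ⟨T, hT, hcard⟩ := exists_fiber (L := L) hn v
  have hv1 := one_lt_nm v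
  have hp0 : (0 : ℝ) < pr v := by exact_mod_cast (pr_prime v).pos
  rcases chi_eq_one_or v he with hchi | hchi
  · obtain ⟨w₁, w₂, hne, hw₁, hw₂⟩ := exists_two_above hθ hθK v h2 he hchi
    have hTeq : T = {w₁, w₂} := by
      symm
      refine Finset.eq_of_subset_of_card_le ?_ ?_
      · intro w hw
        rw [Finset.mem_insert, Finset.mem_singleton] at hw
        rcases hw with rfl | rfl
        · exact (hT _).mpr hw₁
        · exact (hT _).mpr hw₂
      · rw [Finset.card_pair hne]; exact hcard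
    have hprod := prod_nm_dvd (K := K) v {w₁, w₂} (by
      intro w hw
      rw [Finset.mem_insert, Finset.mem_singleton] at hw
      rcases hw with rfl | rfl
      · exact hw₁
      · exact hw₂)
    rw [hn, Finset.prod_pair hne] at hprod
    have hle := Nat.le_of_dvd (pow_pos (by omega) _) hprod
    have h1 : nm v ≤ nm w₁ := by rw [← hw₁]; exact nm_dn_le w₁
    have h3 : nm v ≤ nm w₂ := by rw [← hw₂]; exact nm_dn_le w₂
    have h4 : nm w₁ = nm v := by nlinarith
    have h5 : nm w₂ = nm v := by nlinarith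
    rw [phg_eq g σ v T hT, hTeq, Finset.sum_pair hne, wp, wp, h4, h5, hchi, wp]
    have : (nm v : ℝ) ^ (-σ) * g (nm v) + (nm v : ℝ) ^ (-σ) * g (nm v) -
        (1 + ((1 : ℤ) : ℝ)) * ((nm v : ℝ) ^ (-σ) * g (nm v)) = 0 := by
      push_cast; ring
    rw [this, abs_zero]
    positivity
  · rw [hchi]
    have e0 : (1 + ((-1 : ℤ) : ℝ)) * (wp σ v * g (nm v)) = 0 := by push_cast; ring
    rw [e0, sub_zero, phg_eq g σ v T hT]
    have hterm : ∀ w ∈ T, |wp σ w * g (nm w)| ≤ 1 / (pr v : ℝ) ^ 2 := by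
      intro w hw
      have hwv : dn (K := K) w = v := (hT w).mp hw
      have hne : nm w ≠ nm (dn (K := K) w) := by
        intro h
        have h6 := chi_of_degree_one hθ w (by rw [hwv]; exact he) h
        rw [hwv, hchi] at h6
        norm_num at h6
      have h7 := sq_nm_dn_le w hne
      rw [hwv] at h7
      have h8 : (pr v : ℝ) ^ 2 ≤ nm w := by
        have : pr v ^ 2 ≤ nm w := (Nat.pow_le_pow_left (pr_le_nm v) 2).trans h7
        exact_mod_cast this
      have h9 : (1 : ℝ) ≤ nm w := by exact_mod_cast (one_lt_nm w).le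
      rw [abs_mul, abs_of_pos (wp_pos σ w)]
      calc wp σ w * |g (nm w)| ≤ wp σ w * 1 :=
            mul_le_mul_of_nonneg_left (hg _) (wp_pos σ w).le
        _ = wp σ w := mul_one _
        _ ≤ (nm w : ℝ) ^ (-1 : ℝ) :=
            Real.rpow_le_rpow_of_exponent_le h9 (by linarith)
        _ = 1 / nm w := by rw [Real.rpow_neg_one, one_div]
        _ ≤ _ := one_div_le_one_div_of_le (by positivity) h8
    calc |∑ w ∈ T, wp σ w * g (nm w)| ≤ ∑ _w ∈ T, (1 / (pr v : ℝ) ^ 2) :=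
          (Finset.abs_sum_le_sum_abs _ _).trans (Finset.sum_le_sum hterm)
      _ = T.card * (1 / (pr v : ℝ) ^ 2) := by rw [Finset.sum_const, nsmul_eq_mul]
      _ ≤ 2 * (1 / (pr v : ℝ) ^ 2) := by
          have : (T.card : ℝ) ≤ 2 := by exact_mod_cast hcard
          gcongr
      _ = _ := by ring

/-- The character sum is the difference of the sums over the places of `L` and of `K`, up to a
bounded term. -/
theorem chi_cos_ext [IsGalois K L] [FiniteDimensional K L]
    (hn : Module.finrank (𝓞 K) (𝓞 L) = 2) {g : ℕ → ℝ} (hg : ∀ n, |g n| ≤ 1)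
    {e : 𝓞 K} (he0 : e ≠ 0) {θ : 𝓞 L}
    (hθ : θ ^ 2 = algebraMap (𝓞 K) (𝓞 L) e)
    (hθK : (θ : L) ∉ (⊥ : IntermediateField K L)) :
    ∃ C : ℝ, 0 ≤ C ∧ ∀ σ : ℝ, 1 < σ →
      |∑' w : HeightOneSpectrum (𝓞 L), wp σ w * g (nm w) -
        ∑' v : HeightOneSpectrum (𝓞 K), wp σ v * g (nm v) -
        ∑' v : HeightOneSpectrum (𝓞 K), wp σ v * ((chi v e : ℝ) * g (nm v))| ≤ C := by
  classical
  have h20 : (2 : 𝓞 K) * e ≠ 0 := mul_ne_zero two_ne_zero he0
  set S : Finset (HeightOneSpectrum (𝓞 K)) := (finite_dvd h20).toFinset with hS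
  have hSmem : ∀ v, v ∉ S → (2 : 𝓞 K) ∉ v.asIdeal ∧ e ∉ v.asIdeal := by
    intro v hv
    rw [hS, Set.Finite.mem_toFinset] at hv
    have hv' : (2 : 𝓞 K) * e ∉ v.asIdeal := hv
    exact ⟨fun h => hv' (Ideal.mul_mem_right _ _ h), fun h => hv' (Ideal.mul_mem_left _ _ h)⟩
  have hsqC : 0 ≤ sqC K := tsum_nonneg fun v => by positivity
  refine ⟨2 * sqC K + 2 * S.card, by positivity, ?_⟩
  intro σ hσ'
  have hphi : HasSum (fun v => phg L g σ v)
      (∑' w : HeightOneSpectrum (𝓞 L), wp σ w * g (nm w)) :=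
    (summable_mul_bdd (summable_wp (K := L) hσ') (fun v => (wp_pos σ v).le)
      (fun v => hg (nm v))).hasSum.tsum_fiberwise (dn (K := K))
  have hwp : Summable fun v : HeightOneSpectrum (𝓞 K) => wp σ v * g (nm v) :=
    summable_mul_bdd (summable_wp (K := K) hσ') (fun v => (wp_pos σ v).le) (fun v => hg (nm v))
  have hcg : ∀ v : HeightOneSpectrum (𝓞 K), |(chi v e : ℝ) * g (nm v)| ≤ 1 := fun v => by
    rw [abs_mul]
    exact mul_le_one₀ (abs_chi_real_le v e) (abs_nonneg _) (hg _)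
  have hchi : Summable fun v : HeightOneSpectrum (𝓞 K) => wp σ v * ((chi v e : ℝ) * g (nm v)) :=
    summable_mul_bdd (summable_wp (K := K) hσ') (fun v => (wp_pos σ v).le) hcg
  have hdiff := (hphi.sub hwp.hasSum).sub hchi.hasSum
  have hg1 : HasSum (fun v : HeightOneSpectrum (𝓞 K) => 2 * (1 / (pr v : ℝ) ^ 2))
      (2 * sqC K) := summable_pr_sq.hasSum.mul_left 2
  have hg2 : HasSum (fun v : HeightOneSpectrum (𝓞 K) => if v ∈ S then (2 : ℝ) else 0)
      (2 * S.card) := by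
    have h3 : HasSum (fun v : HeightOneSpectrum (𝓞 K) => if v ∈ S then (2 : ℝ) else 0)
      (∑ v ∈ S, if v ∈ S then (2 : ℝ) else 0) :=
      hasSum_sum_of_ne_finset_zero fun v hv => if_neg hv
    have h4 : ∑ v ∈ S, (if v ∈ S then (2 : ℝ) else 0) = 2 * S.card := by
      rw [Finset.sum_congr rfl fun v hv => if_pos hv, Finset.sum_const, nsmul_eq_mul, mul_comm]
    rwa [h4] at h3
  have hgg := hg1.add hg2
  rw [← hdiff.tsum_eq, ← Real.norm_eq_abs]
  refine tsum_of_norm_bounded hgg fun v => ?_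
  rw [Real.norm_eq_abs]
  have e1 : phg L g σ v - wp σ v * g (nm v) - wp σ v * ((chi v e : ℝ) * g (nm v)) =
      phg L g σ v - (1 + chi v e) * (wp σ v * g (nm v)) := by ring
  rw [e1]
  by_cases hv : v ∈ S
  · rw [if_pos hv]
    have h4 := abs_phg_le (L := L) hn hg hσ'.le v
    have h8 : (0 : ℝ) ≤ 2 * (1 / (pr v : ℝ) ^ 2) := by positivity
    have h9 : |(1 + (chi v e : ℝ)) * (wp σ v * g (nm v))| ≤ 1 := by
      rw [abs_mul, abs_mul, abs_of_pos (wp_pos σ v)]
      have h10 : |1 + (chi v e : ℝ)| ≤ 2 := by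
        refine (abs_add_le _ _).trans ?_
        rw [abs_one]
        linarith [abs_chi_real_le v e]
      have h11 : wp σ v * |g (nm v)| ≤ 1 / 2 * 1 :=
        mul_le_mul (wp_le_half hσ'.le v) (hg _) (abs_nonneg _) (by norm_num)
      calc _ ≤ 2 * (1 / 2 * 1) :=
            mul_le_mul h10 h11 (mul_nonneg (wp_pos σ v).le (abs_nonneg _)) (by norm_num)
        _ = 1 := by norm_num
    refine (abs_sub _ _).trans ?_
    linarith
  · rw [if_neg hv, add_zero]
    have h3 := phg_sub_le hn hg hθ hθK hσ'.le v (hSmem v hv).1 (hSmem v hv).2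
    calc _ ≤ 2 / (pr v : ℝ) ^ 2 := h3
      _ = _ := by ring

end Ext

open Polynomial in
/-- The twisted cosine sum stays bounded: non square case. -/
theorem chi_cos_bound_nonsquare {K : Type*} [Field K] [NumberField K] {e : 𝓞 K}
    (he : ¬ IsSquare (e : K)) {u : ℝ} (hu : u ≠ 0) :
    ∃ C : ℝ, 0 ≤ C ∧ ∀ᶠ σ : ℝ in 𝓝[>] 1,
      |∑' v, wp σ v * ((chi v e : ℝ) * Real.cos (u * Real.log (nm v)))| ≤ C := by
  have hirr : Irreducible (X ^ 2 - C (e : K) : K[X]) := by
    refine X_pow_sub_C_irreducible_of_prime Nat.prime_two fun b hb => he ⟨b, ?_⟩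
    rw [← hb, sq]
  have : Fact (Irreducible (X ^ 2 - C (e : K) : K[X])) := ⟨hirr⟩
  have hmonic : (X ^ 2 - C (e : K) : K[X]).Monic := monic_X_pow_sub_C _ two_ne_zero
  have hfd : FiniteDimensional K (AdjoinRoot (X ^ 2 - C (e : K) : K[X])) :=
    (AdjoinRoot.powerBasis hirr.ne_zero).finite
  have hrank : Module.finrank K (AdjoinRoot (X ^ 2 - C (e : K) : K[X])) = 2 := by
    rw [(AdjoinRoot.powerBasis hirr.ne_zero).finrank, AdjoinRoot.powerBasis_dim,
      natDegree_X_pow_sub_C]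
  have hchar : CharZero (AdjoinRoot (X ^ 2 - C (e : K) : K[X])) :=
    charZero_of_injective_algebraMap (algebraMap K _).injective
  have hquad : Algebra.IsQuadraticExtension K (AdjoinRoot (X ^ 2 - C (e : K) : K[X])) :=
    ⟨hrank⟩
  have hnf : NumberField (AdjoinRoot (X ^ 2 - C (e : K) : K[X])) :=
    { to_charZero := hchar
      to_finiteDimensional := FiniteDimensional.trans ℚ K _ }
  set θ₀ : AdjoinRoot (X ^ 2 - C (e : K) : K[X]) := AdjoinRoot.root _ with hθ₀
  have hθ₀sq : θ₀ ^ 2 = algebraMap K _ (e : K) := by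
    have h1 := AdjoinRoot.eval₂_root (X ^ 2 - C (e : K) : K[X])
    rw [eval₂_sub, eval₂_pow, eval₂_X, eval₂_C, sub_eq_zero] at h1
    exact h1
  have hint : IsIntegral ℤ θ₀ := by
    refine IsIntegral.of_pow (n := 2) (by norm_num) ?_
    rw [hθ₀sq]
    exact (RingOfIntegers.isIntegral_coe e).algebraMap
  set θ : 𝓞 (AdjoinRoot (X ^ 2 - C (e : K) : K[X])) := ⟨θ₀, hint⟩ with hθ
  have hcoe : (θ : AdjoinRoot (X ^ 2 - C (e : K) : K[X])) = θ₀ := rfl
  obtain ⟨B₀, hC0, hC⟩ := chi_cos_ext (L := AdjoinRoot (X ^ 2 - C (e : K) : K[X])) (θ := θ) (e := e)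
    ((IsFractionRing.finrank_eq (𝓞 K) K (𝓞 (AdjoinRoot (X ^ 2 - C (e : K) : K[X])))
      (AdjoinRoot (X ^ 2 - C (e : K) : K[X]))).symm.trans hrank)
    (g := fun n => Real.cos (u * Real.log n)) (fun n => Real.abs_cos_le_one _)
    (by
      rintro rfl
      exact he ⟨0, by simp⟩)
    (by
      apply RingOfIntegers.coe_injective
      rw [map_pow]
      exact hθ₀sq)
    (by
      rw [hcoe, IntermediateField.mem_bot]
      rintro ⟨y, hy⟩
      apply he
      refine ⟨y, (algebraMap K (AdjoinRoot (X ^ 2 - C (e : K) : K[X]))).injective ?_⟩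
      rw [map_mul, hy]
      exact hθ₀sq.symm.trans (sq θ₀))
  obtain ⟨C₁, hC₁0, hC₁⟩ := CS_bound K hu
  obtain ⟨C₂, hC₂0, hC₂⟩ := CS_bound (AdjoinRoot (X ^ 2 - C (e : K) : K[X])) hu
  refine ⟨B₀ + C₁ + C₂, by positivity, ?_⟩
  filter_upwards [hC₁, hC₂, self_mem_nhdsWithin] with σ h1 h2 hσ
  have h3 := abs_le.mp (hC σ hσ)
  have h4 := abs_le.mp h1
  have h5 := abs_le.mp h2
  unfold CS at h4 h5
  rw [abs_le]
  constructor <;> linarith [h3.1, h3.2, h4.1, h4.2, h5.1, h5.2]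

/-- The twisted cosine sum stays bounded: square case. -/
theorem chi_cos_bound_square {K : Type*} [Field K] [NumberField K] {e : 𝓞 K} (he0 : e ≠ 0)
    (he : IsSquare (e : K)) {u : ℝ} (hu : u ≠ 0) :
    ∃ C : ℝ, 0 ≤ C ∧ ∀ᶠ σ : ℝ in 𝓝[>] 1,
      |∑' v, wp σ v * ((chi v e : ℝ) * Real.cos (u * Real.log (nm v)))| ≤ C := by
  classical
  obtain ⟨y, hy⟩ := he
  have hyint : IsIntegral ℤ y := by
    refine IsIntegral.of_pow (n := 2) (by norm_num) ?_
    rw [sq, ← hy]
    exact RingOfIntegers.isIntegral_coe e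
  set x : 𝓞 K := ⟨y, hyint⟩ with hx
  have hex : e = x ^ 2 := by
    apply RingOfIntegers.coe_injective
    rw [map_pow, sq]
    exact hy
  set S : Finset (HeightOneSpectrum (𝓞 K)) := (finite_dvd he0).toFinset with hS
  have hchi : ∀ v, v ∉ S → chi v e = 1 := by
    intro v hv
    rw [hS, Set.Finite.mem_toFinset] at hv
    rw [chi_eq_one_iff v hv]
    refine ⟨x, ?_⟩
    rw [hex, sub_self]
    exact Ideal.zero_mem _
  obtain ⟨C₁, hC₁0, hC₁⟩ := CS_bound K hu
  refine ⟨C₁ + 1 * S.card, by positivity, ?_⟩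
  filter_upwards [hC₁, self_mem_nhdsWithin] with σ h1 hσ
  have hσ' : 1 < σ := hσ
  have hs1 : Summable fun v : HeightOneSpectrum (𝓞 K) =>
      wp σ v * ((chi v e : ℝ) * Real.cos (u * Real.log (nm v))) := by
    refine summable_mul_bdd (summable_wp (K := K) hσ') (fun v => (wp_pos σ v).le) (B := 1)
      fun v => ?_
    rw [abs_mul]
    exact mul_le_one₀ (abs_chi_real_le v e) (abs_nonneg _) (Real.abs_cos_le_one _)
  have hs2 := summable_CS (K := K) hσ' u
  have hdiff : |∑' v, wp σ v * ((chi v e : ℝ) * Real.cos (u * Real.log (nm v))) - CS K σ u| ≤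
      1 * S.card := by
    rw [CS, ← hs1.tsum_sub hs2, ← Real.norm_eq_abs]
    have hg : HasSum (fun v : HeightOneSpectrum (𝓞 K) => if v ∈ S then (1 : ℝ) else 0)
        (1 * S.card) := by
      have h8 : HasSum (fun v : HeightOneSpectrum (𝓞 K) => if v ∈ S then (1 : ℝ) else 0)
        (∑ v ∈ S, if v ∈ S then (1 : ℝ) else 0) :=
        hasSum_sum_of_ne_finset_zero fun v hv => if_neg hv
      have h9 : ∑ v ∈ S, (if v ∈ S then (1 : ℝ) else 0) = 1 * S.card := by
        rw [Finset.sum_congr rfl fun v hv => if_pos hv, Finset.sum_const, nsmul_eq_mul,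
          mul_comm]
      rwa [h9] at h8
    refine tsum_of_norm_bounded hg fun v => ?_
    rw [Real.norm_eq_abs]
    by_cases hv : v ∈ S
    · rw [if_pos hv, ← mul_sub, abs_mul, abs_of_pos (wp_pos σ v)]
      have h3 : |(chi v e : ℝ) * Real.cos (u * Real.log (nm v)) -
          Real.cos (u * Real.log (nm v))| ≤ 2 := by
        refine (abs_sub _ _).trans ?_
        have h4 : |(chi v e : ℝ) * Real.cos (u * Real.log (nm v))| ≤ 1 := by
          rw [abs_mul]
          exact mul_le_one₀ (abs_chi_real_le v e) (abs_nonneg _) (Real.abs_cos_le_one _)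
        linarith [Real.abs_cos_le_one (u * Real.log (nm v))]
      calc _ ≤ 1 / 2 * 2 := mul_le_mul (wp_le_half hσ'.le v) h3 (abs_nonneg _) (by norm_num)
        _ = 1 := by norm_num
    · rw [if_neg hv, hchi v hv]
      simp
  have h4 := abs_le.mp h1
  have h5 := abs_le.mp hdiff
  rw [abs_le]
  constructor <;> linarith [h4.1, h4.2, h5.1, h5.2]

/-- The twisted cosine sum stays bounded. -/
theorem chi_cos_bound {K : Type*} [Field K] [NumberField K] {e : 𝓞 K} (he0 : e ≠ 0) {u : ℝ}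
    (h : u = 0 → ¬ IsSquare (e : K)) :
    ∃ C : ℝ, 0 ≤ C ∧ ∀ᶠ σ : ℝ in 𝓝[>] 1,
      |∑' v, wp σ v * ((chi v e : ℝ) * Real.cos (u * Real.log (nm v)))| ≤ C := by
  by_cases hu : u = 0
  · obtain ⟨C, hC0, hC⟩ := chi_sum_bound (h hu)
    refine ⟨C, hC0, hC.mono fun σ hσ => ?_⟩
    simp only [hu, zero_mul, Real.cos_zero, mul_one]
    exact hσ
  · by_cases he : IsSquare (e : K)
    · exact chi_cos_bound_square he0 he hu
    · exact chi_cos_bound_nonsquare he hu

end Pool.Agent.Lib.MP_bf61d2_nt
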